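import Pool.Agent.HAR.Stmts

/-!
# Squad HAR, row PHB: an injection which moves many points is rarely an embedding
-/

set_option autoImplicit false

namespace Pool.Agent.HAR.H82

open Finset

theorem phb (cnt : CntStmt) (thd : ThdStmt) (prb : PrbStmt) : PhbStmt := by
  intro n I φ hinj hlt h60
  classical
  obtain ⟨D, hD⟩ : ∃ D : Finset (Fin n), D = I.filter fun x => φ x ≠ x := ⟨_, rfl⟩
  have hDI : D ⊆ I := by
    rw [hD]
    exact Finset.filter_subset _ _
  obtain ⟨D', hD'D, hcard, hfree⟩ := thd (Fin n) D φ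
    (hinj.mono (by exact_mod_cast hDI)) (by
      intro x hx
      rw [hD, Finset.mem_filter] at hx
      exact hx.2)
  obtain ⟨P, hP⟩ : ∃ P : Finset (Sym2 (Fin n)), P = D'.offDiag.image fun p => s(p.1, p.2) :=
    ⟨_, rfl⟩
  have hmem : ∀ e, e ∈ P → ∃ x y, x ∈ D' ∧ y ∈ D' ∧ x ≠ y ∧ s(x, y) = e := by
    intro e he
    rw [hP, Finset.mem_image] at he
    obtain ⟨⟨x, y⟩, h, rfl⟩ := he
    rw [Finset.mem_offDiag] at h
    exact ⟨x, y, h.1, h.2.1, h.2.2, rfl⟩
  have hPc : P.card = D'.card.choose 2 := by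
    rw [hP]
    exact Sym2.card_image_offDiag D'
  have h1 := cnt n P (Sym2.map φ) (by
    intro e he
    obtain ⟨x, y, hx, hy, hxy, rfl⟩ := hmem e he
    exact hxy) (by
    intro e he hcon
    obtain ⟨x, y, hx, hy, hxy, rfl⟩ := hmem e he
    obtain ⟨a, b, ha, hb, hab, h⟩ := hmem _ hcon
    rw [Sym2.map_mk, Sym2.eq_iff] at h
    rcases h with ⟨h2, h3⟩ | ⟨h2, h3⟩
    · exact hfree x hx (h2 ▸ ha)
    · exact hfree x hx (h3 ▸ hb))
  have h2 := prb.1 (SimpleGraph (Fin n)) (fun G => IsE G G I φ)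
    (fun G => ∀ e ∈ P, (e ∈ G.edgeSet ↔ Sym2.map φ e ∈ G.edgeSet)) (by
    intro G hG e he
    obtain ⟨x, y, hx, hy, hxy, rfl⟩ := hmem e he
    rw [Sym2.map_mk, SimpleGraph.mem_edgeSet, SimpleGraph.mem_edgeSet]
    exact (hG.2 x (hDI (hD'D hx)) y (hDI (hD'D hy))).symm)
  refine (h2.trans h1).trans ?_
  rw [hPc, one_div, inv_pow, ← Real.rpow_natCast, ← Real.rpow_neg (by norm_num)]
  apply Real.rpow_le_rpow_of_exponent_le (by norm_num)
  rw [neg_le_neg_iff, Nat.cast_choose_two]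
  have h3 : I.card < 6 * D'.card := by
    rw [← hD] at hlt
    omega
  have h4 : ((I.card : ℝ) + 1) ≤ 6 * D'.card := by
    exact_mod_cast h3
  have h5 : (60 : ℝ) ≤ I.card := by exact_mod_cast h60
  nlinarith [mul_nonneg (show (0:ℝ) ≤ 6 * D'.card - (I.card + 1) by linarith)
    (show (0:ℝ) ≤ 6 * D'.card + I.card - 5 by linarith)]

end Pool.Agent.HAR.H82
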